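import Mathlib

namespace Pool.Agent.Results.MP_1619cf_an.TraceInf

open Matrix
open scoped ComplexOrder

/-- The trace norm (Schatten 1-norm): the sum of the singular values, i.e. of the square roots
of the eigenvalues of `Aᴴ * A`. -/
noncomputable def tn {N M : ℕ} (A : Matrix (Fin N) (Fin M) ℂ) : ℝ :=
  ∑ i, √((Matrix.isHermitian_conjTranspose_mul_self A).eigenvalues i)

noncomputable def D2 {N M : ℕ} (X Y : Matrix (Fin N) (Fin M) ℂ) : ℝ := tn X + tn Y - tn (X + Y)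

noncomputable def D3 {N M : ℕ} (X Y Z : Matrix (Fin N) (Fin M) ℂ) : ℝ :=
  tn X + tn Y + tn Z - tn (X + Y + Z)

def mk (a b c d e f : ℝ) : Matrix (Fin 3) (Fin 2) ℂ := !![(a : ℂ), b; c, d; e, f]

lemma mk_add (a b c d e f a' b' c' d' e' f' : ℝ) :
    mk a b c d e f + mk a' b' c' d' e' f' =
      mk (a + a') (b + b') (c + c') (d + d') (e + e') (f + f') := by
  ext i j; fin_cases i <;> fin_cases j <;> simp [mk]

lemma tn_mk (a b c d e f T D : ℝ) (hT : T = a^2 + b^2 + c^2 + d^2 + e^2 + f^2)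
    (hD : D = (a^2 + c^2 + e^2) * (b^2 + d^2 + f^2) - (a*b + c*d + e*f)^2) :
    tn (mk a b c d e f) = √(T + 2 * √D) := by
  set A := mk a b c d e f
  have hA := Matrix.isHermitian_conjTranspose_mul_self A
  have h0 : ∀ i, 0 ≤ hA.eigenvalues i := fun i =>
    (Matrix.posSemidef_conjTranspose_mul_self A).eigenvalues_nonneg i
  have h1 := hA.trace_eq_sum_eigenvalues
  have h2 := hA.det_eq_prod_eigenvalues
  have e1 : (Aᴴ * A).trace = (T : ℂ) := by
    simp [A, mk, Matrix.trace, Matrix.mul_apply, Fin.sum_univ_succ, hT]; ring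
  have e2 : (Aᴴ * A).det = (D : ℂ) := by
    simp [A, mk, Matrix.det_fin_two, Matrix.mul_apply, Fin.sum_univ_succ, hD]; ring
  rw [e1, Fin.sum_univ_two] at h1
  rw [e2, Fin.prod_univ_two] at h2
  have h1' : T = hA.eigenvalues 0 + hA.eigenvalues 1 := by
    have := congrArg Complex.re h1; simpa using this
  have h2' : D = hA.eigenvalues 0 * hA.eigenvalues 1 := by
    have := congrArg Complex.re h2; simpa using this
  change ∑ i, √(hA.eigenvalues i) = _
  rw [Fin.sum_univ_two, h1', h2', Real.sqrt_mul (h0 0)]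
  symm
  rw [Real.sqrt_eq_iff_mul_self_eq (by have := h0 0; have := h0 1; positivity) (by positivity)]
  have := Real.mul_self_sqrt (h0 0)
  have := Real.mul_self_sqrt (h0 1)
  nlinarith

theorem result (C : ℝ) : ∃ X Y Z : Matrix (Fin 3) (Fin 2) ℂ,
    C * (D2 X Y + D2 X Z + D2 Y Z) < D3 X Y Z := by
  set δ : ℝ := 1 / (4 * |C| + 1) with hδ
  have hC : 0 ≤ |C| := abs_nonneg C
  have h0 : 0 < δ := by positivity
  have h1 : δ ≤ 1 := by rw [hδ, div_le_one (by positivity)]; linarith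
  have hCd : 4 * |C| * δ < 1 := by
    rw [hδ, mul_one_div, div_lt_one (by positivity)]; linarith
  set c : ℝ := 1 - δ with hc
  set s : ℝ := √((1 - c^2) / 2) with hs
  have hs2 : s^2 = (1 - c^2) / 2 := Real.sq_sqrt (by nlinarith)
  refine ⟨mk 1 0 0 0 0 0, mk 0 0 0 1 0 0, mk (c/2) (c/2) (c/2) (c/2) s s, ?_⟩
  have tX : tn (mk 1 0 0 0 0 0) = 1 := by rw [tn_mk _ _ _ _ _ _ 1 0 (by ring) (by ring)]; simp
  have tY : tn (mk 0 0 0 1 0 0) = 1 := by rw [tn_mk _ _ _ _ _ _ 1 0 (by ring) (by ring)]; simp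
  have tZ : tn (mk (c/2) (c/2) (c/2) (c/2) s s) = 1 := by
    rw [tn_mk _ _ _ _ _ _ 1 0 (by nlinarith) (by ring)]; simp
  have tXY : tn (mk 1 0 0 0 0 0 + mk 0 0 0 1 0 0) = 2 := by
    rw [mk_add, tn_mk _ _ _ _ _ _ 2 1 (by ring) (by ring), Real.sqrt_one,
      show (2 : ℝ) + 2 * 1 = 2^2 by ring, Real.sqrt_sq (by norm_num)]
  have key : 2 - δ^2 ≤ √(2 + c + 2 * √(1/2 - c^2/4)) ∧ √(2 + c + 2 * √(1/2 - c^2/4)) ≤ 2 := by
    have a1 : 1 - c/2 - δ^2 ≤ √(1/2 - c^2/4) := by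
      apply Real.le_sqrt_of_sq_le
      rw [hc]; nlinarith [mul_pos h0 h0, mul_nonneg (mul_pos (mul_pos h0 h0) h0).le (sub_nonneg.2 h1)]
    have a2 : √(1/2 - c^2/4) ≤ 1 - c/2 := by
      apply Real.sqrt_le_iff.2
      constructor
      · linarith
      · rw [hc]; nlinarith
    constructor
    · apply Real.le_sqrt_of_sq_le
      have : δ^2 ≤ 1 := by nlinarith
      nlinarith [sq_nonneg δ, mul_nonneg (sq_nonneg δ) (sub_nonneg.2 this)]
    · apply Real.sqrt_le_iff.2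
      constructor
      · norm_num
      · nlinarith
  have tXZ : tn (mk 1 0 0 0 0 0 + mk (c/2) (c/2) (c/2) (c/2) s s) =
      √(2 + c + 2 * √(1/2 - c^2/4)) := by
    rw [mk_add, tn_mk _ _ _ _ _ _ (2 + c) (1/2 - c^2/4) (by nlinarith)]
    have : s * s = (1 - c^2) / 2 := by nlinarith
    simp only [zero_add, hs2, this]; ring
  have tYZ : tn (mk 0 0 0 1 0 0 + mk (c/2) (c/2) (c/2) (c/2) s s) =
      √(2 + c + 2 * √(1/2 - c^2/4)) := by
    rw [mk_add, tn_mk _ _ _ _ _ _ (2 + c) (1/2 - c^2/4) (by nlinarith)]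
    have : s * s = (1 - c^2) / 2 := by nlinarith
    simp only [zero_add, hs2, this]; ring
  have tS : tn (mk 1 0 0 0 0 0 + mk 0 0 0 1 0 0 + mk (c/2) (c/2) (c/2) (c/2) s s) ≤ 3 - δ/2 := by
    rw [mk_add, mk_add, tn_mk _ _ _ _ _ _ (3 + 2 * c) (2 + 2 * c) (by nlinarith)]
    · have a1 : √(2 + 2 * c) ≤ 2 - δ/2 := by
        apply Real.sqrt_le_iff.2
        constructor
        · linarith
        · rw [hc]; nlinarith
      apply Real.sqrt_le_iff.2
      constructor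
      · linarith
      · nlinarith
    · have : s * s = (1 - c^2) / 2 := by nlinarith
      simp only [zero_add, add_zero, hs2, this]; ring
  simp only [D2, D3, tX, tY, tZ, tXY, tXZ, tYZ]
  obtain ⟨k1, k2⟩ := key
  set w := √(2 + c + 2 * √(1/2 - c^2/4))
  have b1 : C * (1 + 1 - 2 + (1 + 1 - w) + (1 + 1 - w)) ≤ |C| * (2 * δ^2) := by
    calc _ ≤ |C| * (1 + 1 - 2 + (1 + 1 - w) + (1 + 1 - w)) :=
          mul_le_mul_of_nonneg_right (le_abs_self C) (by linarith)
      _ ≤ _ := mul_le_mul_of_nonneg_left (by linarith) hC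
  have b2 : |C| * (2 * δ^2) < δ / 2 := by nlinarith
  linarith

end Pool.Agent.Results.MP_1619cf_an.TraceInf
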